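import Mathlib

/-!
Project EW: energy equality for weak periodic solutions of the three-dimensional Navier-Stokes
equations from a bound in a sequence of frequency windows. Definitions and statements of the parts.

The torus is `(ℝ/2πℤ)³`, a vector field is given by its Fourier coefficients.
-/

set_option autoImplicit false

open MeasureTheory Set Filter Topology
open scoped ENNReal

namespace Pool.Agent.U469.EW

/-- wave vectors -/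
abbrev Wv := Fin 3 → ℤ

/-- Fourier coefficients of a vector field on the torus -/
abbrev Fld := Wv → Fin 3 → ℂ

/-- the square of the length of a wave vector -/
noncomputable def nsq (k : Wv) : ℝ := ∑ i, (k i : ℝ) ^ 2

/-- `|a(k)|²` -/
noncomputable def sq (a : Fld) (k : Wv) : ℝ := ∑ i, ‖a k i‖ ^ 2

/-- `v · k` -/
noncomputable def dt (v : Fin 3 → ℂ) (k : Wv) : ℂ := ∑ i, v i * (k i : ℂ)

/-- the orthogonal projection onto the plane `k^⊥` -/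
noncomputable def prj (k : Wv) (v : Fin 3 → ℂ) : Fin 3 → ℂ :=
  fun i => v i - dt v k * (k i : ℂ) / (nsq k : ℂ)

/-- `∑_j (a_j · k) a_{k-j}`; `i` times this is the Fourier coefficient of `div (a ⊗ a)` -/
noncomputable def conv (a : Fld) (k : Wv) : Fin 3 → ℂ := fun i => ∑' j, dt (a j) k * a (k - j) i

/-- `u` is a weak solution of the Navier-Stokes equations on `[0,T]` with viscosity `ν` and force
`f`: `u(t)` is real and divergence free, `u ∈ L^∞(0,T;L²) ∩ L²(0,T;H¹)`, `f ∈ L²(0,T;L²)`, and the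
equation holds for each Fourier coefficient, integrated in time. No energy inequality. -/
structure IsWeak (ν T : ℝ) (f u : ℝ → Fld) : Prop where
  real : ∀ t ∈ Icc 0 T, ∀ k i, u t (-k) i = (starRingEnd ℂ) (u t k i)
  div : ∀ t ∈ Icc 0 T, ∀ k, dt (u t k) k = 0
  meas : ∀ k i, AEStronglyMeasurable (fun t => u t k i) (volume.restrict (Icc 0 T))
  energy : ∃ E : ℝ, ∀ t ∈ Icc 0 T, ∑' k, ENNReal.ofReal (sq (u t) k) ≤ ENNReal.ofReal E
  dissipation : ∫⁻ t in Icc 0 T, ∑' k, ENNReal.ofReal (nsq k * sq (u t) k) ≠ ⊤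
  fmeas : ∀ k i, AEStronglyMeasurable (fun t => f t k i) (volume.restrict (Icc 0 T))
  force : ∫⁻ t in Icc 0 T, ∑' k, ENNReal.ofReal (sq (f t) k) ≠ ⊤
  eqn : ∀ t ∈ Icc 0 T, ∀ k i, u t k i = u 0 k i + ∫ s in (0 : ℝ)..t,
    (-((ν * nsq k : ℝ) : ℂ) * u s k i - Complex.I * prj k (conv (u s) k) i + f s k i)

/-- The energy equality on `[0,T]`. -/
def EnergyEq (ν T : ℝ) (f u : ℝ → Fld) : Prop := ∀ t ∈ Icc 0 T,
  (∑' k, sq (u t) k) / 2 + ν * ∫ s in (0 : ℝ)..t, ∑' k, nsq k * sq (u s) k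
    = (∑' k, sq (u 0) k) / 2 +
      ∫ s in (0 : ℝ)..t, ∑' k, (∑ i, f s k i * (starRingEnd ℂ) (u s k i)).re

/-- the wave vectors with `|k_i| ≤ N` for all `i` -/
noncomputable def box (N : ℕ) : Finset Wv := Fintype.piFinset fun _ => Finset.Icc (-(N : ℤ)) N

/-- the frequency window `A < max |k_i| ≤ M` -/
noncomputable def win (A M : ℕ) : Finset Wv := box M \ box A

/-- the character `exp (i k·x)` at `x = 2πy` -/
noncomputable def ch (k : Wv) (y : Fin 3 → ℝ) : ℂ :=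
  Complex.exp (2 * Real.pi * Complex.I * ∑ i, (k i : ℂ) * (y i : ℂ))

/-- the values at `x = 2πy` of the part of the field with the frequencies in `W` -/
noncomputable def ev (W : Finset Wv) (a : Fld) (y : Fin 3 → ℝ) (i : Fin 3) : ℂ :=
  ∑ k ∈ W, a k i * ch k y

/-- `|P_W a (x)|²` at `x = 2πy`, where `P_W a` is the part with the frequencies in `W` -/
noncomputable def amp (W : Finset Wv) (a : Fld) (y : Fin 3 → ℝ) : ℝ := ∑ i, ‖ev W a y i‖ ^ 2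

/-- The flux of energy out of the part of the field selected by the weight `φ` on `F`. -/
noncomputable def flux (F : Finset Wv) (φ : Wv → ℝ) (a : Fld) : ℝ :=
  (∑ k ∈ F, (φ k : ℂ) * ∑ i, conv a k i * (starRingEnd ℂ) (a k i)).im

/-- real, divergence free fields in `H¹` -/
structure Good (a : Fld) : Prop where
  real : ∀ k i, a (-k) i = (starRingEnd ℂ) (a k i)
  div : ∀ k, dt (a k) k = 0
  s0 : Summable (sq a)
  s1 : Summable fun k => nsq k * sq a k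

/-- `‖∇ a_{>A}‖²`, the part with the frequencies outside of `box A` -/
noncomputable def tail (A : ℕ) (a : Fld) : ℝ := ∑' k, if k ∈ box A then 0 else nsq k * sq a k

/-- `(a_j · k) (a_{k-j} · conj a_k)` -/
noncomputable def X (a : Fld) (j k : Wv) : ℂ :=
  dt (a j) k * ∑ i, a (k - j) i * (starRingEnd ℂ) (a k i)

/-! ### statements -/

/-- BAL: balance of the energy with finitely many weights -/
def S_BAL : Prop := ∀ (ν T : ℝ) (f u : ℝ → Fld), 0 < T → IsWeak ν T f u →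
  ∀ (F : Finset Wv) (φ : Wv → ℝ), ∀ t ∈ Icc 0 T,
    (∑ k ∈ F, φ k * sq (u t) k) / 2 + ν * ∫ s in (0 : ℝ)..t, ∑ k ∈ F, φ k * (nsq k * sq (u s) k)
      = (∑ k ∈ F, φ k * sq (u 0) k) / 2 + (∫ s in (0 : ℝ)..t, flux F φ (u s)) +
        ∫ s in (0 : ℝ)..t, ∑ k ∈ F, φ k * (∑ i, f s k i * (starRingEnd ℂ) (u s k i)).re

/-- LIM: if the fluxes tend to zero along a sequence of weights which tend to one, then the energy
equality holds -/
def S_LIM : Prop := ∀ (ν T : ℝ) (f u : ℝ → Fld), 0 < T → IsWeak ν T f u →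
  ∀ (F : ℕ → Finset Wv) (φ : ℕ → Wv → ℝ), (∀ n k, 0 ≤ φ n k ∧ φ n k ≤ 1) →
    (∀ k, ∀ᶠ n in atTop, k ∈ F n ∧ φ n k = 1) →
    Tendsto (fun n => ∫⁻ t in Icc 0 T, ENNReal.ofReal |flux (F n) (φ n) (u t)|) atTop (𝓝 0) →
    EnergyEq ν T f u

/-- PAR: Parseval for trigonometric polynomials -/
def S_PAR : Prop := ∀ (F : Finset Wv) (b : Wv → ℂ),
  ∫ y in Icc (0 : Fin 3 → ℝ) 1, ‖∑ k ∈ F, b k * ch k y‖ ^ 2 = ∑ k ∈ F, ‖b k‖ ^ 2

/-- MUL: multiplication by a bounded trigonometric polynomial -/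
def S_MUL : Prop := ∀ (W K : Finset Wv) (b p : Wv → ℂ) (s : ℝ), 0 ≤ s →
  (∀ y : Fin 3 → ℝ, ‖∑ k ∈ W, b k * ch k y‖ ≤ s) → Summable (fun k => ‖p k‖ ^ 2) →
  ∑ k ∈ K, ‖∑ j ∈ W, b j * p (k - j)‖ ^ 2 ≤ s ^ 2 * ∑' k, ‖p k‖ ^ 2

/-- QUA: products of the components of the part of the field in `W` -/
def S_QUA : Prop := ∀ (W K : Finset Wv) (a : Fld),
  ∑ k ∈ K, ∑ m, ∑ i, ‖∑ j ∈ W.filter (fun j => k - j ∈ W), a j m * a (k - j) i‖ ^ 2
    ≤ ∫ y in Icc (0 : Fin 3 → ℝ) 1, amp W a y ^ 2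

/-- CNT -/
def S_CNT : Prop := ∀ N : ℕ, 1 ≤ N → ∑ k ∈ box N, nsq k ≤ 81 * (N : ℝ) ^ 5

/-- TRI: the trilinear sum with one frequency in a finite set, the other two outside of `box R`.
`p`, `q`, `r` are nonnegative. -/
def S_TRI : Prop := ∀ (B : Finset Wv) (w p q r : Wv → ℝ), (∀ k, 0 ≤ w k) → (∀ k, 0 ≤ p k) →
  (∀ k, 0 ≤ q k) → (∀ k, 0 ≤ r k) → Summable (fun k => p k ^ 2) → Summable (fun k => q k ^ 2) →
  Summable (fun k => r k ^ 2) → ∀ σ : Wv → Wv → Wv, (∀ l, Function.Injective (σ l)) →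
  ∑ l ∈ B, ENNReal.ofReal (w l * p l) * ∑' j, ENNReal.ofReal (q j * r (σ l j))
    ≤ ENNReal.ofReal (√(∑ l ∈ B, w l ^ 2) * √(∑' k, p k ^ 2) * (√(∑' k, q k ^ 2) *
        √(∑' k, r k ^ 2)))

/-- SYM: antisymmetry of the interactions, and the summability -/
def S_SYM : Prop := ∀ a : Fld, Good a → (∀ j k, X a j (j - k) = - X a j k) ∧
  (∀ k, Summable fun j => ‖X a j k‖) ∧
  (∀ k, ∑ i, conv a k i * (starRingEnd ℂ) (a k i) = ∑' j, X a j k) ∧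
  (∀ j k, ‖X a j k‖ ≤ √(nsq k) * √(sq a j) * (√(sq a (k - j)) * √(sq a k))) ∧
  (∀ j k, ‖X a j k‖ ≤ √(nsq (k - j)) * √(sq a j) * (√(sq a (k - j)) * √(sq a k)))

/-- ANT: the flux as an antisymmetrized sum -/
def S_ANT : Prop := ∀ (a : Fld), Good a → ∀ (F : Finset Wv) (φ : Wv → ℝ),
  (∀ k, 0 ≤ φ k ∧ φ k ≤ 1) → (∀ k, φ (-k) = φ k) → (∀ k, k ∉ F → φ k = 0) →
  Summable (fun z : Wv × Wv => ‖((φ z.2 - φ (z.2 - z.1) : ℝ) : ℂ) * X a z.1 z.2‖) ∧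
  flux F φ a = (∑' z : Wv × Wv, ((φ z.2 - φ (z.2 - z.1) : ℝ) : ℂ) * X a z.1 z.2).im / 2

/-- the cutoff `max (0, min (1, 2 - |k|_∞ / N))` -/
noncomputable def cut (N : ℕ) (k : Wv) : ℝ :=
  max 0 (min 1 (2 - ((Finset.univ.sup fun i => (k i).natAbs : ℕ) : ℝ) / N))

/-- CUT: properties of the cutoff -/
def S_CUT : Prop := ∀ N : ℕ, 1 ≤ N → (∀ k, 0 ≤ cut N k ∧ cut N k ≤ 1) ∧
  (∀ k, cut N (-k) = cut N k) ∧ (∀ k ∈ box N, cut N k = 1) ∧ (∀ k, k ∉ box (2 * N) → cut N k = 0) ∧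
  ∀ k j, |cut N k - cut N (k - j)| ≤ √(nsq j) / N

/-- REG: the interactions which are not contained in the window `A < |k|_∞ ≤ M` -/
def S_REG : Prop := ∃ C : ℝ, 0 < C ∧ ∀ a : Fld, Good a → ∀ A N M : ℕ, 1 ≤ N → 2 * A ≤ N → 4 * N ≤ M →
  ∑' z : Wv × Wv, (if z.1 ∈ win A M ∧ z.2 ∈ win A M ∧ z.2 - z.1 ∈ win A M then 0 else
      ENNReal.ofReal (|cut N z.2 - cut N (z.2 - z.1)| * ‖X a z.1 z.2‖))
    ≤ ENNReal.ofReal (C * ((A : ℝ) ^ (5 / 2 : ℝ) / (N : ℝ) ^ 2 + (N : ℝ) ^ (5 / 2 : ℝ) / (M : ℝ) ^ 2) *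
        √(∑' k, sq a k) * tail A a)

/-- WIN: the interactions in a window -/
def S_WIN : Prop := ∀ a : Fld, Good a → ∀ (A M : ℕ) (φ : Wv → ℝ), (∀ k, 0 ≤ φ k ∧ φ k ≤ 1) →
  (∀ k, φ (-k) = φ k) →
  ‖∑ k ∈ win A M, ∑ j ∈ (win A M).filter (fun j => k - j ∈ win A M),
      ((φ k - φ (k - j) : ℝ) : ℂ) * X a j k‖
    ≤ 2 * (√(∫ y in Icc (0 : Fin 3 → ℝ) 1, amp (win A M) a y ^ 2) * √(tail A a))

/-- FB: flux through a smooth cutoff -/
def S_FB : Prop := ∃ C : ℝ, 0 < C ∧ ∀ a : Fld, Good a → ∀ A N M : ℕ, 1 ≤ N → 2 * A ≤ N → 4 * N ≤ M →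
  |flux (box (2 * N)) (cut N) a| ≤
    C * ((A : ℝ) ^ (5 / 2 : ℝ) / (N : ℝ) ^ 2 + (N : ℝ) ^ (5 / 2 : ℝ) / (M : ℝ) ^ 2) *
        √(∑' k, sq a k) * tail A a
      + √(∫ y in Icc (0 : Fin 3 → ℝ) 1, amp (win A M) a y ^ 2) * √(tail A a)

/-- FA: flux through a sharp cutoff -/
def S_FA : Prop := ∃ C : ℝ, 0 < C ∧ ∀ a : Fld, Good a → ∀ A M : ℕ, 1 ≤ A → 2 * A ≤ M →
  ∀ s : ℝ, 0 ≤ s → (∀ y, amp (win A M) a y ≤ s ^ 2) →
  |flux (box A) (fun _ => 1) a| ≤ C * (s * √(∑' k, sq a k) * √(∑' k, nsq k * sq a k)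
      + (A : ℝ) ^ (5 / 2 : ℝ) / (M : ℝ) ^ 2 * √(∑' k, sq a k) * tail A a)

/-- GD: almost every time is good, the tails tend to zero -/
def S_GD : Prop := ∀ (ν T : ℝ) (f u : ℝ → Fld), 0 < T → IsWeak ν T f u →
  (∀ᵐ t ∂(volume.restrict (Icc 0 T)), Good (u t)) ∧
  (∀ A : ℕ, AEMeasurable (fun t => ENNReal.ofReal (tail A (u t))) (volume.restrict (Icc 0 T))) ∧
  (AEMeasurable (fun t => ENNReal.ofReal (∑' k, nsq k * sq (u t) k)) (volume.restrict (Icc 0 T))) ∧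
  (∫⁻ t in Icc 0 T, ENNReal.ofReal (∑' k, nsq k * sq (u t) k) ≠ ⊤) ∧
  Tendsto (fun A : ℕ => ∫⁻ t in Icc 0 T, ENNReal.ofReal (tail A (u t))) atTop (𝓝 0)

/-- TA: first criterion -/
def S_TA : Prop := ∀ (ν T : ℝ) (f u : ℝ → Fld), 0 < T → IsWeak ν T f u →
  ∀ (c : ℝ), 0 < c → ∀ A M : ℕ → ℕ, Tendsto A atTop atTop →
  (∀ n, c * (A n : ℝ) ^ (5 / 4 : ℝ) ≤ M n) →
  Tendsto (fun n => ∫⁻ t in Icc 0 T, ⨆ y, ENNReal.ofReal (amp (win (A n) (M n)) (u t) y))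
    atTop (𝓝 0) →
  EnergyEq ν T f u

/-- TB: second criterion -/
def S_TB : Prop := ∀ (ν T : ℝ) (f u : ℝ → Fld), 0 < T → IsWeak ν T f u →
  ∀ (c K : ℝ), 0 < c → ∀ A M : ℕ → ℕ, Tendsto A atTop atTop →
  (∀ n, c * (A n : ℝ) ^ (25 / 16 : ℝ) ≤ M n) →
  (∀ n, ∫⁻ t in Icc 0 T, ∫⁻ y in Icc (0 : Fin 3 → ℝ) 1,
    ENNReal.ofReal (amp (win (A n) (M n)) (u t) y ^ 2) ≤ ENNReal.ofReal K) →
  EnergyEq ν T f u

end Pool.Agent.U469.EW
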