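import Pool.Agent.U469.EW.Crit
import Pool.Agent.U606.EW.Tri
import Pool.Agent.U535.EW.REGa

/-! Project EW, second theorem: the flux in terms of the Wiener norm of the low frequencies. -/

set_option autoImplicit false

open MeasureTheory Set Filter Topology
open scoped ENNReal

namespace Pool.Agent.U469.EW.FC

open Pool.Agent.U469.EW Pool.Agent.U535.EW.REG

theorem wie_nn (W : Finset Wv) (a : Fld) : 0 ≤ wie W a :=
  Finset.sum_nonneg fun k _ => by positivity

theorem KK {a : Fld} (ha : Good a) (L R : ℕ) (σ : Wv → Wv → Wv)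
    (hσ : ∀ l, Function.Injective (σ l)) :
    ∑' z : Wv × Wv, h a L R z.1 z.2 (σ z.1 z.2) ≤
      ENNReal.ofReal (wie (box L) a * ∑' k, q a R k ^ 2) := by
  rw [tsum_h]
  have h0 : ∀ l : Wv, ∑' j, ENNReal.ofReal (q a R j * q a R (σ l j)) ≤
      ENNReal.ofReal (∑' k, q a R k ^ 2) := by
    intro l
    refine (Pool.Agent.U606.EW.TRI.inner_le (q a R) (q a R) (q_nn a R) (q_nn a R)
      (q_summable ha R) (q_summable ha R) (σ l) (hσ l)).trans ?_
    apply ENNReal.ofReal_le_ofReal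
    have h3 : √(∑' k, q a R k ^ 2) * √(∑' k, q a R k ^ 2) = ∑' k, q a R k ^ 2 :=
      Real.mul_self_sqrt (tsum_nonneg fun k => sq_nonneg _)
    rw [h3]
  have h1 : ∑ l ∈ box L, ENNReal.ofReal (√(nsq l) * √(sq a l)) *
        ∑' j, ENNReal.ofReal (q a R j * q a R (σ l j)) ≤
      ∑ l ∈ box L, ENNReal.ofReal (√(nsq l) * √(sq a l)) *
        ENNReal.ofReal (∑' k, q a R k ^ 2) :=
    Finset.sum_le_sum fun l _ => mul_le_mul_right (h0 l) _
  refine h1.trans (le_of_eq ?_)
  rw [← Finset.sum_mul, ← ENNReal.ofReal_sum_of_nonneg (fun l _ => by positivity),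
    ← ENNReal.ofReal_mul (Finset.sum_nonneg fun l _ => by positivity)]
  rfl

theorem sA {a : Fld} (ha : Good a) (L R : ℕ) :
    ∑' z : Wv × Wv, h a L R z.1 z.2 (z.2 - z.1) ≤
      ENNReal.ofReal (wie (box L) a * ∑' k, q a R k ^ 2) :=
  KK ha L R (fun l j => j - l) fun _ => sub_left_injective

theorem sB {a : Fld} (ha : Good a) (L R : ℕ) :
    ∑' z : Wv × Wv, h a L R z.2 z.1 (z.2 - z.1) ≤
      ENNReal.ofReal (wie (box L) a * ∑' k, q a R k ^ 2) := by
  rw [← Equiv.tsum_eq (Equiv.prodComm Wv Wv)]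
  exact KK ha L R (fun l j => l - j) fun _ => sub_right_injective

theorem sC {a : Fld} (ha : Good a) (L R : ℕ) :
    ∑' z : Wv × Wv, h a L R (z.2 - z.1) z.1 z.2 ≤
      ENNReal.ofReal (wie (box L) a * ∑' k, q a R k ^ 2) := by
  rw [← Equiv.tsum_eq eqv]
  have : ∀ z : Wv × Wv, h a L R ((eqv z).2 - (eqv z).1) (eqv z).1 (eqv z).2 =
      h a L R z.1 z.2 (z.1 + z.2) := by
    intro z
    simp [eqv]
  rw [tsum_congr this]
  exact KK ha L R (fun l j => l + j) fun l => add_right_injective l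

theorem pt2 (hS : S_SYM) (hC : S_CUT) {a : Fld} (ha : Good a) {N : ℕ} (h1 : 1 ≤ N) (j k : Wv) :
    ENNReal.ofReal (|cut N k - cut N (k - j)| * ‖X a j k‖) ≤
    4 * h a (2 * N) (N / 2) j k (k - j) + h a (2 * N) (N / 2) (k - j) j k
      + h a (2 * N) (N / 2) k j (k - j) := by
  obtain ⟨c01, -, cin, cout, clip⟩ := hC N h1
  have hd1 : |cut N k - cut N (k - j)| ≤ 1 := by
    rw [abs_le]
    constructor <;> linarith [(c01 k).1, (c01 k).2, (c01 (k - j)).1, (c01 (k - j)).2]
  by_cases hb : k ∈ box N ∧ k - j ∈ box N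
  · rw [cin k hb.1, cin _ hb.2]; simp
  by_cases hc : k ∉ box (2 * N) ∧ k - j ∉ box (2 * N)
  · rw [cout k hc.1, cout _ hc.2]; simp
  -- bound of the difference times X by X
  have hX : |cut N k - cut N (k - j)| * ‖X a j k‖ ≤ ‖X a j k‖ := by
    have := mul_le_mul_of_nonneg_right hd1 (norm_nonneg (X a j k))
    linarith
  by_cases hl : k - j ∈ box (N / 2)
  · -- second term
    have hk' : k ∉ box N := fun hk => hb ⟨hk, box_mono (by omega) hl⟩
    have hj' : j ∉ box (N / 2) := by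
      intro hj
      apply hk'
      have := box_add (C := N) (by omega) hl hj
      simpa using this
    refine le_trans ?_ (le_add_right (le_add_left (le_refl _)))
    rw [h_val (box_mono (by omega) hl) hj' (fun hk => hk' (box_mono (by omega) hk))]
    apply ENNReal.ofReal_le_ofReal
    refine hX.trans ((X_le2 hS ha j k).trans (le_of_eq ?_))
    ring
  by_cases hk : k ∈ box (N / 2)
  · -- third term
    have hl' : k - j ∉ box N := fun hl => hb ⟨box_mono (by omega) hk, hl⟩
    have hj' : j ∉ box (N / 2) := by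
      intro hj
      apply hl'
      exact box_sub (by omega) hk hj
    refine le_trans ?_ (le_add_left (le_refl _))
    rw [h_val (box_mono (by omega) hk) hj' hl]
    apply ENNReal.ofReal_le_ofReal
    refine hX.trans ((X_le1 hS ha j k).trans (le_of_eq ?_))
    ring
  by_cases hj : j ∈ box (2 * N)
  · -- first term
    have key : |cut N k - cut N (k - j)| * ‖X a j k‖ ≤
        4 * (√(nsq j) * √(sq a j) * (√(sq a k) * √(sq a (k - j)))) := by
      have hN0 : (0 : ℝ) < N := by exact_mod_cast h1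
      have hx : ‖X a j k‖ ≤ 4 * N * √(sq a j) * (√(sq a (k - j)) * √(sq a k)) := by
        by_cases hk2 : k ∈ box (2 * N)
        · refine (X_le1 hS ha j k).trans ?_
          have := nsq_le hk2
          gcongr
        · have hl2 : k - j ∈ box (2 * N) := by
            by_contra hl2
            exact hc ⟨hk2, hl2⟩
          refine (X_le2 hS ha j k).trans ?_
          have := nsq_le hl2
          gcongr
      calc |cut N k - cut N (k - j)| * ‖X a j k‖
          ≤ (√(nsq j) / N) * (4 * N * √(sq a j) * (√(sq a (k - j)) * √(sq a k))) := by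
            apply mul_le_mul (clip k j) hx (norm_nonneg _) (by positivity)
        _ = _ := by field_simp
    have e : 4 * h a (2 * N) (N / 2) j k (k - j) =
        ENNReal.ofReal (4 * (√(nsq j) * √(sq a j) * (√(sq a k) * √(sq a (k - j))))) := by
      rw [h_val hj hk hl, ENNReal.ofReal_mul (by norm_num : (0 : ℝ) ≤ 4)]
      norm_num
    refine le_trans ?_ (le_add_right (le_add_right (le_refl _)))
    rw [e]
    exact ENNReal.ofReal_le_ofReal key
  have hj2 : j ∉ box (N / 2) := fun hj1 => hj (box_mono (by omega) hj1)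
  by_cases hk2 : k ∈ box (2 * N)
  · -- third term
    refine le_trans ?_ (le_add_left (le_refl _))
    rw [h_val hk2 hj2 hl]
    apply ENNReal.ofReal_le_ofReal
    refine hX.trans ((X_le1 hS ha j k).trans (le_of_eq ?_))
    ring
  · -- second term
    have hl2 : k - j ∈ box (2 * N) := by
      by_contra hl2
      exact hc ⟨hk2, hl2⟩
    refine le_trans ?_ (le_add_right (le_add_left (le_refl _)))
    rw [h_val hl2 hj2 hk]
    apply ENNReal.ofReal_le_ofReal
    refine hX.trans ((X_le2 hS ha j k).trans (le_of_eq ?_))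
    ring

theorem t_FC2 (hS : S_SYM) (hA : S_ANT) (hC : S_CUT) : S_FC2 := by
  refine ⟨12, by norm_num, fun a ha N hN => ?_⟩
  have hN1 : 1 ≤ N := by omega
  obtain ⟨hc1, hc2, hc3, hc4, hc5⟩ := hC N hN1
  obtain ⟨hs, hf⟩ := hA a ha (box (2 * N)) (cut N) hc1 hc2 hc4
  have hw0 := wie_nn (box (2 * N)) a
  have ht0 : 0 ≤ tail (N / 2) a := tail_nn _
  have hQ0 : 0 ≤ ∑' k, q a (N / 2) k ^ 2 := tsum_nonneg fun k => sq_nonneg _
  set Y : ℝ := wie (box (2 * N)) a * ∑' k, q a (N / 2) k ^ 2 with hY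
  have hY0 : 0 ≤ Y := by positivity
  have h3 : |(∑' z : Wv × Wv, ((cut N z.2 - cut N (z.2 - z.1) : ℝ) : ℂ) * X a z.1 z.2).im| ≤
      6 * Y := by
    refine (Complex.abs_im_le_norm _).trans ((norm_tsum_le_tsum_norm hs).trans ?_)
    have h2 : ENNReal.ofReal (∑' z : Wv × Wv,
        ‖((cut N z.2 - cut N (z.2 - z.1) : ℝ) : ℂ) * X a z.1 z.2‖) ≤ ENNReal.ofReal (6 * Y) := by
      rw [ENNReal.ofReal_tsum_of_nonneg (fun z => norm_nonneg _) hs]
      have key : ∀ z : Wv × Wv,
          ENNReal.ofReal ‖((cut N z.2 - cut N (z.2 - z.1) : ℝ) : ℂ) * X a z.1 z.2‖ ≤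
          4 * h a (2 * N) (N / 2) z.1 z.2 (z.2 - z.1) + h a (2 * N) (N / 2) (z.2 - z.1) z.1 z.2
            + h a (2 * N) (N / 2) z.2 z.1 (z.2 - z.1) := by
        intro z
        rw [norm_mul, Complex.norm_real, Real.norm_eq_abs]
        exact pt2 hS hC ha hN1 z.1 z.2
      refine (ENNReal.tsum_le_tsum key).trans ?_
      rw [ENNReal.tsum_add, ENNReal.tsum_add, ENNReal.tsum_mul_left]
      have e1 := sA ha (2 * N) (N / 2)
      have e2 := sC ha (2 * N) (N / 2)
      have e3 := sB ha (2 * N) (N / 2)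
      calc _ ≤ 4 * ENNReal.ofReal Y + ENNReal.ofReal Y + ENNReal.ofReal Y := by gcongr
        _ = ENNReal.ofReal (6 * Y) := by
          rw [ENNReal.ofReal_mul (by norm_num : (0 : ℝ) ≤ 6)]
          norm_num
          ring
    exact (ENNReal.ofReal_le_ofReal_iff (by positivity)).1 h2
  rw [hf, abs_div, abs_of_pos (by norm_num : (0:ℝ) < 2)]
  have hN0 : (0 : ℝ) < N := by exact_mod_cast hN1
  have h4 : (N : ℝ) / 2 ≤ ((N / 2 : ℕ) : ℝ) + 1 := by
    have : N ≤ 2 * (N / 2 + 1) := by omega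
    have h5 : (N : ℝ) ≤ 2 * (((N / 2 : ℕ) : ℝ) + 1) := by exact_mod_cast this
    linarith
  have h6 : ∑' k, q a (N / 2) k ^ 2 ≤ 4 * (tail (N / 2) a / (N : ℝ) ^ 2) := by
    refine (q_tail ha le_rfl).trans ?_
    calc tail (N / 2) a / (((N / 2 : ℕ) : ℝ) + 1) ^ 2 ≤ tail (N / 2) a / ((N : ℝ) / 2) ^ 2 := by
          gcongr
      _ = _ := by
        field_simp
        norm_num
  have h7 : ∑' k, q a (N / 2) k ^ 2 ≤ 4 * ∑' k, sq a k := by
    have h8 : ∑' k, q a (N / 2) k ^ 2 ≤ ∑' k, sq a k := by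
      refine Summable.tsum_le_tsum (fun k => ?_) (q_summable ha _) ha.s0
      rw [q_sq]
      split_ifs
      · exact sq_nn a k
      · exact le_rfl
    have h9 : 0 ≤ ∑' k, sq a k := tsum_nonneg fun k => sq_nn a k
    linarith
  have h10 : ∑' k, q a (N / 2) k ^ 2 ≤
      4 * min (∑' k, sq a k) (tail (N / 2) a / (N : ℝ) ^ 2) := by
    rcases min_choice (∑' k, sq a k) (tail (N / 2) a / (N : ℝ) ^ 2) with h | h <;> rw [h] <;>
      assumption
  have h11 : Y ≤ wie (box (2 * N)) a * (4 * min (∑' k, sq a k) (tail (N / 2) a / (N : ℝ) ^ 2)) :=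
    mul_le_mul_of_nonneg_left h10 hw0
  calc _ ≤ 6 * Y / 2 := by linarith
    _ ≤ 6 * (wie (box (2 * N)) a * (4 * min (∑' k, sq a k) (tail (N / 2) a / (N : ℝ) ^ 2))) / 2 := by
        linarith
    _ = 12 * wie (box (2 * N)) a * min (∑' k, sq a k) (tail (N / 2) a / (N : ℝ) ^ 2) := by ring

end Pool.Agent.U469.EW.FC
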