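import Pool.Agent.U469.EW.Stm

/-! Project EW: assembly. -/

set_option autoImplicit false

open MeasureTheory Set Filter Topology
open scoped ENNReal

namespace Pool.Agent.U469.EW

theorem final (hA : S_TA) (hB : S_TB) (ν T : ℝ) (hT : 0 < T) (f u : ℝ → Fld)
    (hu : IsWeak ν T f u) (c : ℝ) (hc : 0 < c) (A M : ℕ → ℕ) (hAn : Tendsto A atTop atTop)
    (h : ((∀ n, c * (A n : ℝ) ^ (5 / 4 : ℝ) ≤ M n) ∧
        Tendsto (fun n => ∫⁻ t in Icc 0 T, ⨆ y, ENNReal.ofReal (amp (win (A n) (M n)) (u t) y))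
          atTop (𝓝 0)) ∨
      ((∀ n, c * (A n : ℝ) ^ (25 / 16 : ℝ) ≤ M n) ∧ ∃ K : ℝ, ∀ n,
        ∫⁻ t in Icc 0 T, ∫⁻ y in Icc (0 : Fin 3 → ℝ) 1,
          ENNReal.ofReal (amp (win (A n) (M n)) (u t) y ^ 2) ≤ ENNReal.ofReal K)) :
    EnergyEq ν T f u := by
  rcases h with ⟨h1, h2⟩ | ⟨h1, K, h2⟩
  · exact hA ν T f u hT hu c hc A M hAn h1 h2
  · exact hB ν T f u hT hu c K hc A M hAn h1 h2

theorem fb (hANT : S_ANT) (hREG : S_REG) (hWIN : S_WIN) (hCUT : S_CUT) : S_FB := by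
  obtain ⟨C, hC, hR⟩ := hREG
  refine ⟨C, hC, fun a ha A N M hN hAN hNM => ?_⟩
  obtain ⟨hc1, hc2, hc3, hc4, hc5⟩ := hCUT N hN
  obtain ⟨hs, hf⟩ := hANT a ha (box (2 * N)) (cut N) hc1 hc2 hc4
  have hw := hWIN a ha A M (cut N) hc1 hc2
  have hr := hR a ha A N M hN hAN hNM
  set Z : Wv × Wv → ℂ := fun z => ((cut N z.2 - cut N (z.2 - z.1) : ℝ) : ℂ) * X a z.1 z.2 with hZ
  set R : Set (Wv × Wv) := {z | z.1 ∈ win A M ∧ z.2 ∈ win A M ∧ z.2 - z.1 ∈ win A M} with hRdef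
  set B : ℝ := C * ((A : ℝ) ^ (5 / 2 : ℝ) / (N : ℝ) ^ 2 + (N : ℝ) ^ (5 / 2 : ℝ) / (M : ℝ) ^ 2) *
        √(∑' k, sq a k) * tail A a with hB
  have hB0 : 0 ≤ B := by
    have : 0 ≤ tail A a := by
      refine tsum_nonneg fun k => ?_
      split
      · exact le_rfl
      · exact mul_nonneg (Finset.sum_nonneg fun i _ => sq_nonneg _)
          (Finset.sum_nonneg fun i _ => sq_nonneg _)
    positivity
  have hsum : Summable Z := hs.of_norm
  -- split
  have hsplit : ∑' z, Z z = ∑' z, R.indicator Z z + ∑' z, Rᶜ.indicator Z z := by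
    rw [← (hsum.indicator R).tsum_add (hsum.indicator Rᶜ)]
    refine tsum_congr fun z => ?_
    by_cases hz : z ∈ R <;> simp [hz]
  -- the part outside
  have hout : ‖∑' z, Rᶜ.indicator Z z‖ ≤ B := by
    have h1 : Summable fun z => ‖Rᶜ.indicator Z z‖ := by
      have := hs.indicator Rᶜ
      refine this.congr fun z => ?_
      by_cases hz : z ∈ R
      · simp [hz]
      · rw [Set.indicator_of_mem (by simpa using hz), Set.indicator_of_mem (by simpa using hz)]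
    refine (norm_tsum_le_tsum_norm h1).trans ?_
    have h2 : ENNReal.ofReal (∑' z, ‖Rᶜ.indicator Z z‖) ≤ ENNReal.ofReal B := by
      rw [ENNReal.ofReal_tsum_of_nonneg (fun z => norm_nonneg _) h1]
      refine le_trans (le_of_eq ?_) hr
      refine tsum_congr fun z => ?_
      by_cases hz : z ∈ R
      · have hz' : z.1 ∈ win A M ∧ z.2 ∈ win A M ∧ z.2 - z.1 ∈ win A M := hz
        rw [if_pos hz']
        simp [hz]
      · have hz' : ¬ (z.1 ∈ win A M ∧ z.2 ∈ win A M ∧ z.2 - z.1 ∈ win A M) := hz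
        rw [if_neg hz', Set.indicator_of_mem (by simpa using hz)]
        rw [hZ]
        simp only [norm_mul, Complex.norm_real, Real.norm_eq_abs]
    exact (ENNReal.ofReal_le_ofReal_iff hB0).1 h2
  -- the part inside
  have hin : ∑' z, R.indicator Z z = ∑ k ∈ win A M, ∑ j ∈ (win A M).filter (fun j => k - j ∈ win A M),
      ((cut N k - cut N (k - j) : ℝ) : ℂ) * X a j k := by
    classical
    have h1 : ∀ z ∉ (win A M) ×ˢ (win A M), R.indicator Z z = 0 := by
      intro z hz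
      refine Set.indicator_of_notMem (fun hz' => hz ?_) _
      exact Finset.mem_product.2 ⟨hz'.1, hz'.2.1⟩
    rw [tsum_eq_sum h1, Finset.sum_product_right]
    refine Finset.sum_congr rfl fun k hk => ?_
    rw [Finset.sum_filter]
    refine Finset.sum_congr rfl fun j hj => ?_
    by_cases hkj : k - j ∈ win A M
    · rw [if_pos hkj, Set.indicator_of_mem (show (j, k) ∈ R from ⟨hj, hk, hkj⟩)]
    · rw [if_neg hkj, Set.indicator_of_notMem (fun h => hkj h.2.2)]
  rw [hf]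
  have h3 : |(∑' z, Z z).im| ≤ ‖∑' z, Z z‖ := Complex.abs_im_le_norm _
  have h4 : ‖∑' z, Z z‖ ≤ 2 * (√(∫ y in Icc (0 : Fin 3 → ℝ) 1, amp (win A M) a y ^ 2)
      * √(tail A a)) + B := by
    rw [hsplit, hin]
    exact (norm_add_le _ _).trans (add_le_add hw hout)
  rw [abs_div, abs_of_pos (by norm_num : (0:ℝ) < 2)]
  have h5 : |(∑' z, Z z).im| / 2 ≤ (2 * (√(∫ y in Icc (0 : Fin 3 → ℝ) 1, amp (win A M) a y ^ 2)
      * √(tail A a)) + B) / 2 := by
    have := h3.trans h4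
    linarith
  refine h5.trans ?_
  linarith

end Pool.Agent.U469.EW
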