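import Pool.Agent.U469.EW.Stm

/-! Project EW, second theorem: critical bounds in a sparse sequence of frequency windows. -/

set_option autoImplicit false

open MeasureTheory Set Filter Topology
open scoped ENNReal

namespace Pool.Agent.U469.EW

/-- the norm of the gradient of the part with frequencies in `W` in the Wiener algebra -/
noncomputable def wie (W : Finset Wv) (a : Fld) : ℝ := ∑ k ∈ W, √(nsq k) * √(sq a k)

/-- FC: the flux through a Lipschitz cutoff, in terms of the Wiener norm of the low frequencies -/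
def S_FC : Prop := ∃ C : ℝ, 0 < C ∧ ∀ a : Fld, Good a → ∀ N : ℕ, 2 ≤ N →
  |flux (box (2 * N)) (cut N) a| ≤ C / (N : ℝ) ^ 2 * wie (box (2 * N)) a * tail (N / 2) a

/-- FC2: the same with the energy of the high frequencies -/
def S_FC2 : Prop := ∃ C : ℝ, 0 < C ∧ ∀ a : Fld, Good a → ∀ N : ℕ, 2 ≤ N →
  |flux (box (2 * N)) (cut N) a| ≤
    C * wie (box (2 * N)) a * min (∑' k, sq a k) (tail (N / 2) a / (N : ℝ) ^ 2)

end Pool.Agent.U469.EW
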