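import Pool.Agent.U469.EW.Crit

/-! Project EW, second theorem: assembly. -/

set_option autoImplicit false

open MeasureTheory Set Filter Topology
open scoped ENNReal

namespace Pool.Agent.U469.EW

theorem sq_nn (a : Fld) (k : Wv) : 0 ≤ sq a k := Finset.sum_nonneg fun i _ => by positivity

theorem nsq_nn (k : Wv) : 0 ≤ nsq k := Finset.sum_nonneg fun i _ => by positivity

theorem tail_nn (A : ℕ) (a : Fld) : 0 ≤ tail A a := by
  refine tsum_nonneg fun k => ?_
  split_ifs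
  · exact le_rfl
  · exact mul_nonneg (nsq_nn k) (sq_nn a k)

theorem mem_box {N : ℕ} {k : Wv} : k ∈ box N ↔ ∀ i, |k i| ≤ N := by
  unfold box
  simp only [Fintype.mem_piFinset, Finset.mem_Icc, abs_le]

theorem box_mono {N M : ℕ} (h : N ≤ M) : box N ⊆ box M := by
  intro k hk
  rw [mem_box] at hk ⊢
  exact fun i => (hk i).trans (by exact_mod_cast h)

theorem wie_mono {V W : Finset Wv} (h : V ⊆ W) (a : Fld) : wie V a ≤ wie W a :=
  Finset.sum_le_sum_of_subset_of_nonneg h fun k _ _ => by positivity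

theorem wie_cs (W : Finset Wv) (a : Fld) (hs : Summable (sq a)) :
    wie W a ≤ √(∑ k ∈ W, nsq k) * √(∑' k, sq a k) := by
  have h1 : wie W a ≤ √(∑ k ∈ W, √(nsq k) ^ 2) * √(∑ k ∈ W, √(sq a k) ^ 2) :=
    Real.sum_mul_le_sqrt_mul_sqrt _ _ _
  have h2 : ∑ k ∈ W, √(nsq k) ^ 2 = ∑ k ∈ W, nsq k :=
    Finset.sum_congr rfl fun k _ => Real.sq_sqrt (nsq_nn k)
  have h3 : ∑ k ∈ W, √(sq a k) ^ 2 = ∑ k ∈ W, sq a k :=
    Finset.sum_congr rfl fun k _ => Real.sq_sqrt (sq_nn a k)
  rw [h2, h3] at h1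
  refine h1.trans (mul_le_mul_of_nonneg_left ?_ (Real.sqrt_nonneg _))
  exact Real.sqrt_le_sqrt (hs.sum_le_tsum W fun k _ => sq_nn a k)

/-- the cutoff frequency -/
noncomputable def hf (M : ℕ) : ℕ := max 1 (M / 2)

theorem one_le_hf (M : ℕ) : 1 ≤ hf M := le_max_left _ _

/-- the general criterion -/
theorem crit0 (hFC : S_FC2) (hCNT : S_CNT) (hCUT : S_CUT) (hGD : S_GD) (hLIM : S_LIM)
    (ν T : ℝ) (hT : 0 < T) (f u : ℝ → Fld) (hu : IsWeak ν T f u) (c : ℝ) (hc : 0 < c)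
    (A M : ℕ → ℕ) (hA : Tendsto A atTop atTop) (hM : ∀ n, c * (A n : ℝ) ^ (5 / 4 : ℝ) ≤ M n)
    (E : ℝ) (hE : ∀ t ∈ Icc 0 T, ∑' k, ENNReal.ofReal (sq (u t) k) ≤ ENNReal.ofReal E)
    (hlim1 : Tendsto (fun n => ∫⁻ t in Icc 0 T, ENNReal.ofReal (wie (win (A n) (M n)) (u t) *
      min (max E 0) (tail (hf (M n) / 2) (u t) / (hf (M n) : ℝ) ^ 2))) atTop (𝓝 0)) :
    EnergyEq ν T f u := by
  obtain ⟨C, hC0, hFC⟩ := hFC
  obtain ⟨hgood, htm, -, -, htail⟩ := hGD ν T f u hT hu
  -- the scales tend to infinity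
  have hMinf : Tendsto M atTop atTop := by
    have h1 : Tendsto (fun n => c * (A n : ℝ) ^ (5 / 4 : ℝ)) atTop atTop :=
      ((tendsto_rpow_atTop (by norm_num)).comp
        (tendsto_natCast_atTop_atTop.comp hA)).const_mul_atTop hc
    exact tendsto_natCast_atTop_iff.1 (tendsto_atTop_mono hM h1)
  have hhinf : Tendsto (fun n => hf (M n)) atTop atTop := by
    refine tendsto_atTop.2 fun b => ?_
    filter_upwards [hMinf.eventually_ge_atTop (2 * b)] with n hn
    exact le_max_of_le_right (by omega)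
  refine hLIM ν T f u hT hu (fun n => box (2 * hf (M n))) (fun n => cut (hf (M n)))
    (fun n => (hCUT _ (one_le_hf _)).1) (fun k => ?_) ?_
  · -- the weights tend to one
    have h1 : ∀ᶠ n in atTop, (∑ i, (k i).natAbs) ≤ hf (M n) := hhinf.eventually_ge_atTop _
    filter_upwards [h1] with n hn
    have h2 : ∀ i, |k i| ≤ (hf (M n) : ℤ) := by
      intro i
      have h3 : (k i).natAbs ≤ ∑ i, (k i).natAbs :=
        Finset.single_le_sum (f := fun i => (k i).natAbs) (fun _ _ => Nat.zero_le _)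
          (Finset.mem_univ i)
      have h4 := h3.trans hn
      rw [Int.abs_eq_natAbs]
      exact_mod_cast h4
    refine ⟨mem_box.2 fun i => (h2 i).trans ?_, (hCUT _ (one_le_hf _)).2.2.1 k (mem_box.2 h2)⟩
    push_cast
    linarith [Nat.cast_nonneg (α := ℤ) (hf (M n))]
  · -- the fluxes tend to zero
    set E' : ℝ := max E 0 with hE'
    have hE'0 : 0 ≤ E' := le_max_right _ _
    set D : ℝ := 9 * C * (9 / c ^ 2 * √E') with hD
    have hD0 : 0 ≤ D := by positivity
    have hh2 : Tendsto (fun n => hf (M n) / 2) atTop atTop := by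
      refine tendsto_atTop.2 fun b => ?_
      filter_upwards [hhinf.eventually_ge_atTop (2 * b)] with n hn
      omega
    have htA := htail.comp hh2
    have hlim2 : Tendsto (fun n => ENNReal.ofReal D *
        ∫⁻ t in Icc 0 T, ENNReal.ofReal (tail (hf (M n) / 2) (u t))) atTop (𝓝 0) := by
      have h2 := ENNReal.Tendsto.const_mul (a := ENNReal.ofReal D) htA
        (Or.inr ENNReal.ofReal_ne_top)
      rwa [mul_zero] at h2
    have hlim3 := ENNReal.Tendsto.const_mul (a := ENNReal.ofReal C) hlim1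
        (Or.inr ENNReal.ofReal_ne_top)
    rw [mul_zero] at hlim3
    have hlim := hlim2.add hlim3
    rw [add_zero] at hlim
    refine tendsto_of_tendsto_of_tendsto_of_le_of_le' tendsto_const_nhds hlim
      (Eventually.of_forall fun n => bot_le) ?_
    filter_upwards [hA.eventually_ge_atTop 1, hMinf.eventually_ge_atTop 4] with n hAn hMn
    have hN : hf (M n) = M n / 2 := max_eq_right (by omega)
    have hN2 : 2 ≤ hf (M n) := by omega
    have h18 : (0 : ℝ) < hf (M n) := by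
      have : 0 < hf (M n) := by omega
      exact_mod_cast this
    have hM0 : (0 : ℝ) < M n := by
      have : 0 < M n := by omega
      exact_mod_cast this
    rw [← lintegral_const_mul' _ _ ENNReal.ofReal_ne_top,
      ← lintegral_const_mul' _ _ ENNReal.ofReal_ne_top,
      ← lintegral_add_left' ((htm _).const_mul _)]
    refine lintegral_mono_ae ?_
    filter_upwards [hgood, ae_restrict_mem measurableSet_Icc] with t ht htT
    have htl : 0 ≤ tail (hf (M n) / 2) (u t) := tail_nn _ _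
    have hw0 : 0 ≤ wie (win (A n) (M n)) (u t) := Finset.sum_nonneg fun k _ => by positivity
    have hb0 : 0 ≤ wie (box (A n)) (u t) := Finset.sum_nonneg fun k _ => by positivity
    set τ : ℝ := tail (hf (M n) / 2) (u t) with hτ
    have hmin0 : 0 ≤ min E' (τ / (hf (M n) : ℝ) ^ 2) := le_min hE'0 (by positivity)
    rw [← ENNReal.ofReal_mul hD0, ← ENNReal.ofReal_mul hC0.le,
      ← ENNReal.ofReal_add (by positivity) (by positivity)]
    refine ENNReal.ofReal_le_ofReal ?_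
    have h3 := hFC (u t) ht (hf (M n)) hN2
    -- the energy
    have h4 : ∑' k, sq (u t) k ≤ E' := by
      have h5 := hE t htT
      rw [← ENNReal.ofReal_tsum_of_nonneg (fun k => sq_nn _ k) ht.s0] at h5
      have h6 : ENNReal.ofReal (∑' k, sq (u t) k) ≤ ENNReal.ofReal E' :=
        h5.trans (ENNReal.ofReal_le_ofReal (le_max_left _ _))
      exact (ENNReal.ofReal_le_ofReal_iff hE'0).1 h6
    -- the low frequencies
    have h7 : wie (box (A n)) (u t) ≤ 9 / c ^ 2 * √E' * (M n : ℝ) ^ 2 := by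
      have h8 := wie_cs (box (A n)) (u t) ht.s0
      have h9 : √(∑ k ∈ box (A n), nsq k) ≤ 9 / c ^ 2 * (M n : ℝ) ^ 2 := by
        have h10 := hCNT (A n) hAn
        have hA0 : (0 : ℝ) ≤ A n := Nat.cast_nonneg _
        set P : ℝ := (A n : ℝ) ^ (5 / 4 : ℝ) with hP
        have hP0 : 0 ≤ P := Real.rpow_nonneg hA0 _
        have hP4 : P ^ 4 = (A n : ℝ) ^ 5 := by
          rw [hP, ← Real.rpow_natCast, ← Real.rpow_mul hA0, ← Real.rpow_natCast]
          norm_num
        have hPM : P ≤ M n / c := by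
          rw [le_div_iff₀ hc]
          linarith [hM n]
        have hP2 : P ^ 2 ≤ (M n : ℝ) ^ 2 / c ^ 2 := by
          rw [← div_pow]
          exact pow_le_pow_left₀ hP0 hPM 2
        have h11 : √(∑ k ∈ box (A n), nsq k) ≤ √((9 * P ^ 2) ^ 2) := by
          refine Real.sqrt_le_sqrt (h10.trans (le_of_eq ?_))
          rw [← hP4]
          ring
        rw [Real.sqrt_sq (by positivity)] at h11
        refine h11.trans ?_
        calc 9 * P ^ 2 ≤ 9 * ((M n : ℝ) ^ 2 / c ^ 2) := by linarith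
          _ = 9 / c ^ 2 * (M n : ℝ) ^ 2 := by ring
      calc wie (box (A n)) (u t) ≤ √(∑ k ∈ box (A n), nsq k) * √(∑' k, sq (u t) k) := h8
        _ ≤ 9 / c ^ 2 * (M n : ℝ) ^ 2 * √E' :=
            mul_le_mul h9 (Real.sqrt_le_sqrt h4) (Real.sqrt_nonneg _) (by positivity)
        _ = 9 / c ^ 2 * √E' * (M n : ℝ) ^ 2 := by ring
    have h12 : wie (box (2 * hf (M n))) (u t) ≤
        wie (win (A n) (M n)) (u t) + wie (box (A n)) (u t) := by
      have h13 : box (2 * hf (M n)) ⊆ win (A n) (M n) ∪ box (A n) := by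
        intro k hk
        have hk' : k ∈ box (M n) := box_mono (by omega) hk
        by_cases hkA : k ∈ box (A n)
        · exact Finset.mem_union_right _ hkA
        · exact Finset.mem_union_left _ (Finset.mem_sdiff.2 ⟨hk', hkA⟩)
      have h14 := wie_mono h13 (u t)
      have h15 : wie (win (A n) (M n) ∪ box (A n)) (u t) =
          wie (win (A n) (M n)) (u t) + wie (box (A n)) (u t) := by
        unfold wie
        exact Finset.sum_union Finset.sdiff_disjoint
      exact h14.trans (le_of_eq h15)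
    -- the scales
    have h17 : (M n : ℝ) ≤ 3 * hf (M n) := by
      have : M n ≤ 3 * hf (M n) := by omega
      exact_mod_cast this
    have h19 : (M n : ℝ) ^ 2 ≤ 9 * (hf (M n) : ℝ) ^ 2 := by
      have := pow_le_pow_left₀ hM0.le h17 2
      rwa [mul_pow, show (3 : ℝ) ^ 2 = 9 by norm_num] at this
    have h20 : min (∑' k, sq (u t) k) (τ / (hf (M n) : ℝ) ^ 2) ≤
        min E' (τ / (hf (M n) : ℝ) ^ 2) := min_le_min_right _ h4
    have h21 : min E' (τ / (hf (M n) : ℝ) ^ 2) ≤ τ / (hf (M n) : ℝ) ^ 2 := min_le_right _ _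
    have h22 : wie (box (A n)) (u t) * min E' (τ / (hf (M n) : ℝ) ^ 2) ≤
        9 * (9 / c ^ 2 * √E') * τ := by
      calc wie (box (A n)) (u t) * min E' (τ / (hf (M n) : ℝ) ^ 2)
          ≤ (9 / c ^ 2 * √E' * (9 * (hf (M n) : ℝ) ^ 2)) * (τ / (hf (M n) : ℝ) ^ 2) := by
            refine mul_le_mul (h7.trans ?_) h21 hmin0 (by positivity)
            exact mul_le_mul_of_nonneg_left h19 (by positivity)
        _ = 9 * (9 / c ^ 2 * √E') * τ := by field_simp
    calc |flux (box (2 * hf (M n))) (cut (hf (M n))) (u t)|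
        ≤ C * wie (box (2 * hf (M n))) (u t) *
            min (∑' k, sq (u t) k) (τ / (hf (M n) : ℝ) ^ 2) := h3
      _ ≤ C * (wie (win (A n) (M n)) (u t) + wie (box (A n)) (u t)) *
            min E' (τ / (hf (M n) : ℝ) ^ 2) := by
          refine mul_le_mul (mul_le_mul_of_nonneg_left h12 hC0.le) h20 ?_ (by positivity)
          exact le_min (tsum_nonneg fun k => sq_nn _ k) (by positivity)
      _ = C * (wie (box (A n)) (u t) * min E' (τ / (hf (M n) : ℝ) ^ 2)) +
            C * (wie (win (A n) (M n)) (u t) * min E' (τ / (hf (M n) : ℝ) ^ 2)) := by ring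
      _ ≤ C * (9 * (9 / c ^ 2 * √E') * τ) +
            C * (wie (win (A n) (M n)) (u t) * min E' (τ / (hf (M n) : ℝ) ^ 2)) := by
          have := mul_le_mul_of_nonneg_left h22 hC0.le
          linarith
      _ = D * τ + C * (wie (win (A n) (M n)) (u t) * min E' (τ / (hf (M n) : ℝ) ^ 2)) := by
          rw [hD]
          ring

/-- the scales -/
theorem scales {c : ℝ} (hc : 0 < c) {A M : ℕ → ℕ} (hA : Tendsto A atTop atTop)
    (hM : ∀ n, c * (A n : ℝ) ^ (5 / 4 : ℝ) ≤ M n) :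
    Tendsto (fun n => hf (M n) / 2) atTop atTop ∧
      ∀ᶠ n in atTop, 0 < (hf (M n) : ℝ) ∧ (M n : ℝ) ^ 2 ≤ 9 * (hf (M n) : ℝ) ^ 2 := by
  have hMinf : Tendsto M atTop atTop := by
    have h1 : Tendsto (fun n => c * (A n : ℝ) ^ (5 / 4 : ℝ)) atTop atTop :=
      ((tendsto_rpow_atTop (by norm_num)).comp
        (tendsto_natCast_atTop_atTop.comp hA)).const_mul_atTop hc
    exact tendsto_natCast_atTop_iff.1 (tendsto_atTop_mono hM h1)
  refine ⟨tendsto_atTop.2 fun b => ?_, ?_⟩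
  · filter_upwards [hMinf.eventually_ge_atTop (4 * b + 4)] with n hn
    have : M n / 2 ≤ hf (M n) := le_max_right _ _
    omega
  · filter_upwards [hMinf.eventually_ge_atTop 4] with n hMn
    have hN : hf (M n) = M n / 2 := max_eq_right (by omega)
    have h18 : (0 : ℝ) < hf (M n) := by
      have : 0 < hf (M n) := by omega
      exact_mod_cast this
    have h17 : (M n : ℝ) ≤ 3 * hf (M n) := by
      have : M n ≤ 3 * hf (M n) := by omega
      exact_mod_cast this
    refine ⟨h18, ?_⟩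
    have := pow_le_pow_left₀ (Nat.cast_nonneg (M n)) h17 2
    rwa [mul_pow, show (3 : ℝ) ^ 2 = 9 by norm_num] at this

theorem crit (hFC : S_FC2) (hCNT : S_CNT) (hCUT : S_CUT) (hGD : S_GD) (hLIM : S_LIM)
    (ν T : ℝ) (hT : 0 < T) (f u : ℝ → Fld) (hu : IsWeak ν T f u) (c K : ℝ) (hc : 0 < c)
    (A M : ℕ → ℕ) (hA : Tendsto A atTop atTop) (hM : ∀ n, c * (A n : ℝ) ^ (5 / 4 : ℝ) ≤ M n)
    (h : ∀ n, ∀ᵐ t ∂(volume.restrict (Icc 0 T)), wie (win (A n) (M n)) (u t) ≤ K * (M n : ℝ) ^ 2) :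
    EnergyEq ν T f u := by
  obtain ⟨E, hE⟩ := hu.energy
  refine crit0 hFC hCNT hCUT hGD hLIM ν T hT f u hu c hc A M hA hM E hE ?_
  obtain ⟨hgood, htm, -, -, htail⟩ := hGD ν T f u hT hu
  obtain ⟨hsc1, hsc2⟩ := scales hc hA hM
  set K' : ℝ := max K 0 with hK'
  have hK'0 : 0 ≤ K' := le_max_right _ _
  have htA := htail.comp hsc1
  have hlim : Tendsto (fun n => ENNReal.ofReal (9 * K') *
      ∫⁻ t in Icc 0 T, ENNReal.ofReal (tail (hf (M n) / 2) (u t))) atTop (𝓝 0) := by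
    have h2 := ENNReal.Tendsto.const_mul (a := ENNReal.ofReal (9 * K')) htA
      (Or.inr ENNReal.ofReal_ne_top)
    rwa [mul_zero] at h2
  refine tendsto_of_tendsto_of_tendsto_of_le_of_le' tendsto_const_nhds hlim
    (Eventually.of_forall fun n => bot_le) ?_
  filter_upwards [hsc2] with n hn
  obtain ⟨h18, h19⟩ := hn
  rw [← lintegral_const_mul' _ _ ENNReal.ofReal_ne_top]
  refine lintegral_mono_ae ?_
  filter_upwards [h n] with t hw
  rw [← ENNReal.ofReal_mul (by positivity)]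
  refine ENNReal.ofReal_le_ofReal ?_
  have htl : 0 ≤ tail (hf (M n) / 2) (u t) := tail_nn _ _
  have h20 : wie (win (A n) (M n)) (u t) ≤ K' * (9 * (hf (M n) : ℝ) ^ 2) := by
    have e1 : K * (M n : ℝ) ^ 2 ≤ K' * (M n : ℝ) ^ 2 :=
      mul_le_mul_of_nonneg_right (le_max_left K 0) (by positivity)
    exact hw.trans (e1.trans (mul_le_mul_of_nonneg_left h19 hK'0))
  calc wie (win (A n) (M n)) (u t) *
        min (max E 0) (tail (hf (M n) / 2) (u t) / (hf (M n) : ℝ) ^ 2)
      ≤ K' * (9 * (hf (M n) : ℝ) ^ 2) * (tail (hf (M n) / 2) (u t) / (hf (M n) : ℝ) ^ 2) := by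
        refine mul_le_mul h20 (min_le_right _ _) (le_min (le_max_right _ _) (by positivity))
          (by positivity)
    _ = 9 * K' * tail (hf (M n) / 2) (u t) := by field_simp

theorem critp (hFC : S_FC2) (hCNT : S_CNT) (hCUT : S_CUT) (hGD : S_GD) (hLIM : S_LIM)
    (ν T : ℝ) (hT : 0 < T) (f u : ℝ → Fld) (hu : IsWeak ν T f u) (c K p : ℝ) (hc : 0 < c)
    (hp : 1 < p)
    (A M : ℕ → ℕ) (hA : Tendsto A atTop atTop) (hM : ∀ n, c * (A n : ℝ) ^ (5 / 4 : ℝ) ≤ M n)
    (h : ∀ n, ∫⁻ t in Icc 0 T, ENNReal.ofReal (wie (win (A n) (M n)) (u t) ^ p) ≤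
      ENNReal.ofReal (K * (M n : ℝ) ^ (2 * p - 2))) :
    EnergyEq ν T f u := by
  obtain ⟨E, hE⟩ := hu.energy
  refine crit0 hFC hCNT hCUT hGD hLIM ν T hT f u hu c hc A M hA hM E hE ?_
  obtain ⟨hgood, htm, -, -, htail⟩ := hGD ν T f u hT hu
  obtain ⟨hsc1, hsc2⟩ := scales hc hA hM
  have hp0 : 0 < p := by linarith
  set K' : ℝ := max K 0 with hK'
  have hK'0 : 0 ≤ K' := le_max_right _ _
  set E' : ℝ := max E 0 with hE'
  have hE'0 : 0 ≤ E' := le_max_right _ _
  have hpq : p.HolderConjugate (Real.conjExponent p) := Real.HolderConjugate.conjExponent hp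
  set q' : ℝ := Real.conjExponent p with hq'
  have hq0 : 0 < q' := hpq.symm.pos
  have hsum : 1 / p + 1 / q' = 1 := by
    have := hpq.inv_add_inv_eq_one
    simpa [one_div] using this
  have hr0 : 0 < 1 / q' := by positivity
  have hs0 : 0 < 1 / p := by positivity
  have hr1 : 1 / q' ≤ 1 := by linarith
  have htA := htail.comp hsc1
  set κ : ℝ := 9 * (E' ^ (1 / p) * K' ^ (1 / p)) with hκ
  have hκ0 : 0 ≤ κ := by positivity
  have hlim : Tendsto (fun n => ENNReal.ofReal κ *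
      (∫⁻ t in Icc 0 T, ENNReal.ofReal (tail (hf (M n) / 2) (u t))) ^ (1 / q')) atTop (𝓝 0) := by
    have h1 : Tendsto (fun n =>
        (∫⁻ t in Icc 0 T, ENNReal.ofReal (tail (hf (M n) / 2) (u t))) ^ (1 / q')) atTop (𝓝 0) := by
      have h3 := (ENNReal.continuous_rpow_const (y := 1 / q')).tendsto (0 : ℝ≥0∞)
      rw [ENNReal.zero_rpow_of_pos hr0] at h3
      exact h3.comp htA
    have h2 := ENNReal.Tendsto.const_mul (a := ENNReal.ofReal κ) h1
      (Or.inr ENNReal.ofReal_ne_top)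
    rwa [mul_zero] at h2
  refine tendsto_of_tendsto_of_tendsto_of_le_of_le' tendsto_const_nhds hlim
    (Eventually.of_forall fun n => bot_le) ?_
  filter_upwards [hsc2] with n hn
  obtain ⟨h18, h19⟩ := hn
  set W : ℝ → ℝ := fun t => wie (win (A n) (M n)) (u t) with hW
  have hW0 : ∀ t, 0 ≤ W t := fun t => Finset.sum_nonneg fun k _ => by positivity
  have hWm : AEMeasurable W (volume.restrict (Icc 0 T)) := by
    rw [hW]
    unfold wie
    refine Finset.aemeasurable_fun_sum _ fun k _ => ?_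
    refine AEMeasurable.const_mul ?_ _
    refine AEMeasurable.sqrt ?_
    unfold sq
    exact Finset.aemeasurable_fun_sum _ fun i _ => ((hu.meas k i).norm.aemeasurable.pow_const 2)
  set τ : ℝ → ℝ := fun t => tail (hf (M n) / 2) (u t) with hτ
  have hτ0 : ∀ t, 0 ≤ τ t := fun t => tail_nn _ _
  set N2 : ℝ := (hf (M n) : ℝ) ^ 2 with hN2
  have hN20 : 0 < N2 := by positivity
  set g : ℝ := E' ^ (1 / p) / N2 ^ (1 / q') with hg
  have hg0 : 0 ≤ g := by positivity
  -- the bound at a time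
  have hpt : ∀ t, ENNReal.ofReal (W t * min E' (τ t / N2)) ≤
      ENNReal.ofReal g * (ENNReal.ofReal (W t) * ENNReal.ofReal (τ t) ^ (1 / q')) := by
    intro t
    have hx0 : 0 ≤ τ t / N2 := div_nonneg (hτ0 t) hN20.le
    have hm0 : 0 ≤ min E' (τ t / N2) := le_min hE'0 hx0
    have h1 : min E' (τ t / N2) ≤ E' ^ (1 / p) * (τ t / N2) ^ (1 / q') := by
      calc min E' (τ t / N2) = min E' (τ t / N2) ^ (1 / p + 1 / q') := by
            rw [hsum, Real.rpow_one]
        _ = min E' (τ t / N2) ^ (1 / p) * min E' (τ t / N2) ^ (1 / q') :=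
            Real.rpow_add_of_nonneg hm0 hs0.le hr0.le
        _ ≤ E' ^ (1 / p) * (τ t / N2) ^ (1 / q') :=
            mul_le_mul (Real.rpow_le_rpow hm0 (min_le_left _ _) hs0.le)
              (Real.rpow_le_rpow hm0 (min_le_right _ _) hr0.le) (by positivity) (by positivity)
    rw [ENNReal.ofReal_rpow_of_nonneg (hτ0 t) hr0.le, ← ENNReal.ofReal_mul (hW0 t),
      ← ENNReal.ofReal_mul hg0]
    refine ENNReal.ofReal_le_ofReal ?_
    calc W t * min E' (τ t / N2) ≤ W t * (E' ^ (1 / p) * (τ t / N2) ^ (1 / q')) :=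
          mul_le_mul_of_nonneg_left h1 (hW0 t)
      _ = g * (W t * τ t ^ (1 / q')) := by
          rw [Real.div_rpow (hτ0 t) hN20.le, hg]
          ring
  refine (lintegral_mono hpt).trans ?_
  rw [lintegral_const_mul' _ _ ENNReal.ofReal_ne_top]
  have hH := ENNReal.lintegral_mul_le_Lp_mul_Lq (volume.restrict (Icc 0 T)) hpq
    (f := fun t => ENNReal.ofReal (W t)) (g := fun t => ENNReal.ofReal (τ t) ^ (1 / q'))
    hWm.ennreal_ofReal ((htm _).pow_const _)
  have hH1 : ∫⁻ t in Icc 0 T, ENNReal.ofReal (W t) ^ p ≤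
      ENNReal.ofReal (K' * (M n : ℝ) ^ (2 * p - 2)) := by
    refine le_trans (le_of_eq ?_) ((h n).trans (ENNReal.ofReal_le_ofReal
      (mul_le_mul_of_nonneg_right (le_max_left _ _) (by positivity))))
    refine lintegral_congr fun t => ?_
    rw [ENNReal.ofReal_rpow_of_nonneg (hW0 t) hp0.le]
  have hH2 : ∀ t, (ENNReal.ofReal (τ t) ^ (1 / q')) ^ q' = ENNReal.ofReal (τ t) := by
    intro t
    rw [← ENNReal.rpow_mul, one_div, inv_mul_cancel₀ hq0.ne', ENNReal.rpow_one]
  have hH3 : (∫⁻ t in Icc 0 T, ENNReal.ofReal (W t) ^ p) ^ (1 / p) ≤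
      ENNReal.ofReal (K' ^ (1 / p) * ((M n : ℝ) ^ 2) ^ (1 / q')) := by
    refine (ENNReal.rpow_le_rpow hH1 hs0.le).trans (le_of_eq ?_)
    rw [ENNReal.ofReal_rpow_of_nonneg (by positivity) hs0.le,
      Real.mul_rpow hK'0 (by positivity)]
    congr 2
    rw [← Real.rpow_mul (Nat.cast_nonneg _), ← Real.rpow_natCast, ← Real.rpow_mul
      (Nat.cast_nonneg _)]
    congr 1
    have : 1 / q' = 1 - 1 / p := by linarith
    rw [this]
    push_cast
    field_simp
  have hH4 : ∫⁻ t in Icc 0 T, ENNReal.ofReal (W t) * ENNReal.ofReal (τ t) ^ (1 / q') ≤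
      ENNReal.ofReal (K' ^ (1 / p) * ((M n : ℝ) ^ 2) ^ (1 / q')) *
        (∫⁻ t in Icc 0 T, ENNReal.ofReal (τ t)) ^ (1 / q') := by
    refine le_trans hH ?_
    simp only [hH2]
    exact mul_le_mul_left hH3 _
  refine (mul_le_mul_right hH4 _).trans ?_
  rw [← mul_assoc, ← ENNReal.ofReal_mul hg0]
  refine mul_le_mul_left (ENNReal.ofReal_le_ofReal ?_) _
  have hN2r : 0 < N2 ^ (1 / q') := Real.rpow_pos_of_pos hN20 _
  have h30 : ((M n : ℝ) ^ 2) ^ (1 / q') ≤ 9 * N2 ^ (1 / q') := by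
    calc ((M n : ℝ) ^ 2) ^ (1 / q') ≤ (9 * N2) ^ (1 / q') :=
          Real.rpow_le_rpow (by positivity) h19 hr0.le
      _ = 9 ^ (1 / q') * N2 ^ (1 / q') := Real.mul_rpow (by norm_num) hN20.le
      _ ≤ 9 * N2 ^ (1 / q') := by
          refine mul_le_mul_of_nonneg_right ?_ hN2r.le
          calc (9 : ℝ) ^ (1 / q') ≤ 9 ^ (1 : ℝ) :=
                Real.rpow_le_rpow_of_exponent_le (by norm_num) hr1
            _ = 9 := Real.rpow_one _
  calc g * (K' ^ (1 / p) * ((M n : ℝ) ^ 2) ^ (1 / q'))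
      ≤ g * (K' ^ (1 / p) * (9 * N2 ^ (1 / q'))) := by
        refine mul_le_mul_of_nonneg_left ?_ hg0
        exact mul_le_mul_of_nonneg_left h30 (by positivity)
    _ = κ := by
        rw [hg, hκ]
        field_simp

/-- thin spectrum in a window -/
theorem wie_thin (A M : ℕ) (S : Set Wv) (a : Fld) (hs : Summable (sq a)) (K : ℝ)
    (h0 : ∀ k ∈ win A M, k ∉ S → a k = 0)
    (hS : ((S ∩ win A M).ncard : ℝ) ≤ K * (M : ℝ) ^ 2) :
    wie (win A M) a ≤ √(3 * max K 0) * √(∑' k, sq a k) * (M : ℝ) ^ 2 := by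
  classical
  have h1 : wie (win A M) a = wie ((win A M).filter (· ∈ S)) a := by
    unfold wie
    rw [Finset.sum_filter]
    refine Finset.sum_congr rfl fun k hk => ?_
    split_ifs with hkS
    · rfl
    · have : sq a k = 0 := by
        unfold sq
        rw [h0 k hk hkS]
        simp
      rw [this]
      simp
  have h2 := wie_cs ((win A M).filter (· ∈ S)) a hs
  have h3 : (((win A M).filter (· ∈ S)).card : ℝ) ≤ K * (M : ℝ) ^ 2 := by
    refine le_trans (le_of_eq ?_) hS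
    have : S ∩ (win A M : Set Wv) = (((win A M).filter (· ∈ S) : Finset Wv) : Set Wv) := by
      ext k
      simp [and_comm]
    rw [this, Set.ncard_coe_finset]
  have h4 : ∑ k ∈ (win A M).filter (· ∈ S), nsq k ≤ 3 * max K 0 * (M : ℝ) ^ 4 := by
    have h5 : ∀ k ∈ (win A M).filter (· ∈ S), nsq k ≤ 3 * (M : ℝ) ^ 2 := by
      intro k hk
      have hk1 : k ∈ box M := (Finset.mem_sdiff.1 (Finset.mem_filter.1 hk).1).1
      rw [mem_box] at hk1
      unfold nsq
      have h6 : ∀ i, (k i : ℝ) ^ 2 ≤ (M : ℝ) ^ 2 := by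
        intro i
        have h7 : |(k i : ℝ)| ≤ M := by exact_mod_cast hk1 i
        rw [← sq_abs]
        exact pow_le_pow_left₀ (abs_nonneg _) h7 2
      calc ∑ i, (k i : ℝ) ^ 2 ≤ ∑ _i : Fin 3, (M : ℝ) ^ 2 := Finset.sum_le_sum fun i _ => h6 i
        _ = 3 * (M : ℝ) ^ 2 := by simp
    calc ∑ k ∈ (win A M).filter (· ∈ S), nsq k
        ≤ ((win A M).filter (· ∈ S)).card • (3 * (M : ℝ) ^ 2) := Finset.sum_le_card_nsmul _ _ _ h5
      _ = (((win A M).filter (· ∈ S)).card : ℝ) * (3 * (M : ℝ) ^ 2) := by rw [nsmul_eq_mul]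
      _ ≤ (max K 0 * (M : ℝ) ^ 2) * (3 * (M : ℝ) ^ 2) := by
          refine mul_le_mul_of_nonneg_right (h3.trans ?_) (by positivity)
          exact mul_le_mul_of_nonneg_right (le_max_left _ _) (by positivity)
      _ = 3 * max K 0 * (M : ℝ) ^ 4 := by ring
  rw [h1]
  refine h2.trans ?_
  have h8 : √(∑ k ∈ (win A M).filter (· ∈ S), nsq k) ≤ √(3 * max K 0) * (M : ℝ) ^ 2 := by
    refine (Real.sqrt_le_sqrt h4).trans (le_of_eq ?_)
    rw [Real.sqrt_mul (by positivity), show (M : ℝ) ^ 4 = ((M : ℝ) ^ 2) ^ 2 by ring,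
      Real.sqrt_sq (by positivity)]
  calc √(∑ k ∈ (win A M).filter (· ∈ S), nsq k) * √(∑' k, sq a k)
      ≤ √(3 * max K 0) * (M : ℝ) ^ 2 * √(∑' k, sq a k) :=
        mul_le_mul_of_nonneg_right h8 (Real.sqrt_nonneg _)
    _ = √(3 * max K 0) * √(∑' k, sq a k) * (M : ℝ) ^ 2 := by ring

/-- the two criteria -/
theorem crit2 (hFC : S_FC2) (hCNT : S_CNT) (hCUT : S_CUT) (hGD : S_GD) (hLIM : S_LIM)
    (ν T : ℝ) (hT : 0 < T) (f u : ℝ → Fld) (hu : IsWeak ν T f u) (c K : ℝ) (hc : 0 < c)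
    (A M : ℕ → ℕ) (hA : Tendsto A atTop atTop) (hM : ∀ n, c * (A n : ℝ) ^ (5 / 4 : ℝ) ≤ M n)
    (h : (∀ n, ∀ᵐ t ∂(volume.restrict (Icc 0 T)),
        wie (win (A n) (M n)) (u t) ≤ K * (M n : ℝ) ^ 2) ∨
      (∃ p : ℝ, 1 < p ∧ ∀ n, ∫⁻ t in Icc 0 T, ENNReal.ofReal (wie (win (A n) (M n)) (u t) ^ p) ≤
        ENNReal.ofReal (K * (M n : ℝ) ^ (2 * p - 2))) ∨
      ∃ S : Set Wv, (∀ n, ((S ∩ win (A n) (M n)).ncard : ℝ) ≤ K * (M n : ℝ) ^ 2) ∧
        ∀ n, ∀ k ∈ win (A n) (M n), k ∉ S → ∀ᵐ t ∂(volume.restrict (Icc 0 T)), u t k = 0) :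
    EnergyEq ν T f u := by
  rcases h with h | ⟨p, hp, h⟩ | ⟨S, hS, h0⟩
  · exact crit hFC hCNT hCUT hGD hLIM ν T hT f u hu c K hc A M hA hM h
  · exact critp hFC hCNT hCUT hGD hLIM ν T hT f u hu c K p hc hp A M hA hM h
  · obtain ⟨hgood, -⟩ := hGD ν T f u hT hu
    obtain ⟨E, hE⟩ := hu.energy
    refine crit hFC hCNT hCUT hGD hLIM ν T hT f u hu c (√(3 * max K 0) * √(max E 0)) hc A M hA hM
      fun n => ?_
    have h1 : ∀ᵐ t ∂(volume.restrict (Icc 0 T)), ∀ k : Wv, k ∈ win (A n) (M n) → k ∉ S →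
        u t k = 0 := by
      rw [ae_all_iff]
      intro k
      by_cases hk : k ∈ win (A n) (M n)
      · by_cases hkS : k ∈ S
        · exact Eventually.of_forall fun t _ h => absurd hkS h
        · filter_upwards [h0 n k hk hkS] with t ht _ _
          exact ht
      · exact Eventually.of_forall fun t h => absurd h hk
    filter_upwards [hgood, ae_restrict_mem measurableSet_Icc, h1] with t ht htT ht0
    have h4 : ∑' k, sq (u t) k ≤ max E 0 := by
      have h5 := hE t htT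
      rw [← ENNReal.ofReal_tsum_of_nonneg (fun k => sq_nn _ k) ht.s0] at h5
      have h6 : ENNReal.ofReal (∑' k, sq (u t) k) ≤ ENNReal.ofReal (max E 0) :=
        h5.trans (ENNReal.ofReal_le_ofReal (le_max_left _ _))
      exact (ENNReal.ofReal_le_ofReal_iff (le_max_right _ _)).1 h6
    refine (wie_thin (A n) (M n) S (u t) ht.s0 K ht0 (hS n)).trans ?_
    refine mul_le_mul_of_nonneg_right ?_ (by positivity)
    exact mul_le_mul_of_nonneg_left (Real.sqrt_le_sqrt h4) (Real.sqrt_nonneg _)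

end Pool.Agent.U469.EW
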