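import Pool.Agent.U469.EW.Asm
import Pool.Agent.U293.EW.GD
import Pool.Agent.U606.EW.Tri
import Pool.Agent.U111.EW.WIN
import Pool.Agent.U744.EW.CNTCUT
import Pool.Agent.U810.EW.TB
import Pool.Agent.U97.EW.PARMUL
import Pool.Agent.U312.EW.SYMANT
import Pool.Agent.U128.EW.LIM
import Pool.Agent.U423.EW.QUA
import Pool.Agent.U103.EW.BAL
import Pool.Agent.U913.EW.FA
import Pool.Agent.U278.EW.TA
import Pool.Agent.U535.EW.REG

/-!
# Energy equality from a sparse sequence of frequency windows

Let `u` be a weak solution of the Navier-Stokes equations on the torus `(ℝ/2πℤ)³` and on `[0,T]`,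
with viscosity `ν` and force `f ∈ L²(0,T;L²)`; no energy inequality is assumed. Let `P_n u` be the
part of `u` with the frequencies `A_n < max |k_i| ≤ M_n`, where `A_n → ∞`, and `c > 0`. The energy
equality holds on `[0,T]` if

* `M_n ≥ c A_n^(5/4)` and `P_n u → 0` in `L²(0,T;L^∞)`, for example if `u` has no frequencies in
  these windows; or
* `M_n ≥ c A_n^(25/16)` and `P_n u` is bounded in `L⁴(0,T;L⁴)`.

There is no condition on the other frequencies, and the windows may be arbitrarily sparse. So a
weak solution which violates the energy equality has a part of size at least `δ > 0` in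
`L²(0,T;L^∞)` in every window `(A, c A^(5/4)]`, `A ≥ A_0`.

Idea: the flux of energy through a cutoff inside the window comes from triads of frequencies with
a member in the window or with two members above it (or, for a Lipschitz cutoff, with a low member,
which then moves the energy only a little in the frequency space). The last two kinds are controlled
by the dissipation if the window has the length `A^(5/4)` (or `A^(25/16)`).

Design: helper469. Parts: helper103, helper594 (balance), helper128, helper293 (limits), helper97,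
helper423 (Parseval), helper312 (antisymmetry), helper535, helper606, helper744 (triads outside of
the window), helper111, helper913 (flux), helper278, helper810 (integration in time).
-/

set_option autoImplicit false

open MeasureTheory Set Filter Topology
open scoped ENNReal

namespace Pool.Agent.U469.EW.FW

open Pool.Agent.U469.EW

theorem result (ν T : ℝ) (hT : 0 < T) (f u : ℝ → Fld) (hu : IsWeak ν T f u)
    (c : ℝ) (hc : 0 < c) (A M : ℕ → ℕ) (hA : Tendsto A atTop atTop)
    (h : ((∀ n, c * (A n : ℝ) ^ (5 / 4 : ℝ) ≤ M n) ∧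
        Tendsto (fun n => ∫⁻ t in Icc 0 T, ⨆ y, ENNReal.ofReal (amp (win (A n) (M n)) (u t) y))
          atTop (𝓝 0)) ∨
      ((∀ n, c * (A n : ℝ) ^ (25 / 16 : ℝ) ≤ M n) ∧ ∃ K : ℝ, ∀ n,
        ∫⁻ t in Icc 0 T, ∫⁻ y in Icc (0 : Fin 3 → ℝ) 1,
          ENNReal.ofReal (amp (win (A n) (M n)) (u t) y ^ 2) ≤ ENNReal.ofReal K)) :
    EnergyEq ν T f u := by
  have hSYM := Pool.Agent.U312.EW.SYMANT.t_SYM
  have hANT := Pool.Agent.U312.EW.SYMANT.t_ANT hSYM
  have hTRI := Pool.Agent.U606.EW.TRI.t_TRI
  have hCNT := Pool.Agent.U744.EW.CNTCUT.t_CNT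
  have hCUT := Pool.Agent.U744.EW.CNTCUT.t_CUT
  have hPAR := Pool.Agent.U97.EW.PARMUL.t_PAR
  have hMUL := Pool.Agent.U97.EW.PARMUL.t_MUL
  have hQUA := Pool.Agent.U423.EW.QUA.t_QUA hPAR
  have hWIN := Pool.Agent.U111.EW.WIN.t_WIN hSYM hQUA
  have hREG := Pool.Agent.U535.EW.REG.t_REG hSYM hTRI hCNT hCUT
  have hFB := fb hANT hREG hWIN hCUT
  have hFA := Pool.Agent.U913.EW.FA.t_FA hSYM hMUL hTRI hCNT
  have hGD := Pool.Agent.U293.EW.GD.t_GD
  have hBAL := Pool.Agent.U103.EW.BAL.t_BAL
  have hLIM := Pool.Agent.U128.EW.LIM.t_LIM hBAL hGD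
  exact final (Pool.Agent.U278.EW.TA.t_TA hFA hGD hLIM)
    (Pool.Agent.U810.EW.TB.t_TB hFB hCUT hGD hLIM) ν T hT f u hu c hc A M hA h

end Pool.Agent.U469.EW.FW
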